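import Pool.Agent.Q24.Cas.Defs

set_option autoImplicit false
set_option linter.unusedSectionVars false

open MeasureTheory Topology Set Function

namespace Q24.Cas

section top

variable {X Y Z : Type} [TopologicalSpace X] [TopologicalSpace Y] [TopologicalSpace Z]

lemma VietCont.comp {S : Y → Set X} (hS : VietCont S) {f : Z → Y} (hf : Continuous f) :
    VietCont fun z => S (f z) :=
  ⟨fun U hU => (hS.1 U hU).preimage hf, fun U hU => (hS.2 U hU).preimage hf⟩

lemma VietCont.cover [T2Space X] [LocallyCompactSpace X] {S : Y → Set X} (hS : VietCont S)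
    (hc : ∀ y, IsCompact (S y)) {C : Set Y} (hC : IsCompact C) :
    ∃ K : Set X, IsCompact K ∧ ∀ y ∈ C, S y ⊆ K := by
  refine hC.induction_on (p := fun C => ∃ K : Set X, IsCompact K ∧ ∀ y ∈ C, S y ⊆ K)
    ⟨∅, isCompact_empty, by simp⟩ ?_ ?_ ?_
  · rintro s t hst ⟨K, hK, h⟩
    exact ⟨K, hK, fun y hy => h y (hst hy)⟩
  · rintro s t ⟨K, hK, h⟩ ⟨L, hL, h'⟩
    refine ⟨K ∪ L, hK.union hL, fun y hy => ?_⟩
    rcases hy with hy | hy
    · exact (h y hy).trans subset_union_left
    · exact (h' y hy).trans subset_union_right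
  · intro y _
    obtain ⟨K', hK', hsub⟩ := exists_compact_superset (hc y)
    refine ⟨{y' | S y' ⊆ interior K'}, mem_nhdsWithin_of_mem_nhds
      ((hS.1 _ isOpen_interior).mem_nhds hsub), K', hK', fun y' hy' => ?_⟩
    exact (show S y' ⊆ interior K' from hy').trans interior_subset

lemma CC.cb {f : X → ℝ} (hf : CC f) : CB f := by
  obtain ⟨C, hC⟩ := hf.2.exists_bound_of_continuous hf.1
  exact ⟨hf.1, C, hC⟩

lemma CC.mul_left {f g : X → ℝ} (hf : CC f) (hg : Continuous g) : CC fun x => f x * g x :=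
  ⟨hf.1.mul hg, hf.2.mul_right⟩

lemma CC.mul_right {f g : X → ℝ} (hf : CC f) (hg : Continuous g) : CC fun x => g x * f x :=
  ⟨hg.mul hf.1, hf.2.mul_left⟩

lemma urysohn [T2Space X] [LocallyCompactSpace X] {K V : Set X} (hK : IsCompact K)
    (hV : IsOpen V) (hKV : K ⊆ V) : ∃ f : X → ℝ, CC f ∧ (∀ x ∈ K, f x = 1) ∧
      (∀ x, f x ≠ 0 → x ∈ V) ∧ ∀ x, 0 ≤ f x := by
  obtain ⟨f, h1, h2, h3, h4⟩ := exists_continuousMap_one_of_isCompact_subset_isOpen hK hV hKV
  exact ⟨f, ⟨f.continuous, h2⟩, fun x hx => h1 hx, fun x hx => h3 (subset_tsupport _ hx),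
    fun x => (h4 x).1⟩

end top

section meas

variable {X : Type} [TopologicalSpace X] [T2Space X] [LocallyCompactSpace X]
  [SecondCountableTopology X] [MeasurableSpace X] [BorelSpace X]

lemma support_dirac (x : X) : (Measure.dirac x).support = {x} := by
  ext y
  rw [Measure.mem_support_iff_forall, mem_singleton_iff]
  constructor
  · intro h
    by_contra hne
    have h1 : ({x}ᶜ : Set X) ∈ 𝓝 y := isOpen_compl_singleton.mem_nhds hne
    have h2 := h _ h1
    rw [Measure.dirac_apply' _ isOpen_compl_singleton.measurableSet] at h2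
    simp at h2
  · rintro rfl U hU
    rw [Measure.dirac_apply_of_mem (mem_of_mem_nhds hU)]
    exact one_pos

lemma int_one {μ : Measure X} [IsProbabilityMeasure μ] {g : X → ℝ}
    (h : ∀ z ∈ μ.support, g z = 1) : ∫ z, g z ∂μ = 1 := by
  have h1 : g =ᵐ[μ] fun _ => (1 : ℝ) := by
    filter_upwards [Measure.support_mem_ae (μ := μ)] with z hz using h z hz
  rw [integral_congr_ae h1]
  simp

lemma int_zero {μ : Measure X} {g : X → ℝ} (h : ∀ z ∈ μ.support, g z = 0) :
    ∫ z, g z ∂μ = 0 := by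
  have h1 : g =ᵐ[μ] fun _ => (0 : ℝ) := by
    filter_upwards [Measure.support_mem_ae (μ := μ)] with z hz using h z hz
  rw [integral_congr_ae h1]
  simp

lemma int_pos {μ : Measure X} [IsFiniteMeasureOnCompacts μ] {g : X → ℝ} (hg : CC g)
    (h0 : ∀ z, 0 ≤ g z) {y : X} (hy : y ∈ μ.support) (hgy : g y ≠ 0) : 0 < ∫ z, g z ∂μ := by
  rw [integral_pos_iff_support_of_nonneg h0 (hg.1.integrable_of_hasCompactSupport hg.2)]
  rw [Measure.mem_support_iff_forall] at hy
  exact hy _ (hg.1.isOpen_support.mem_nhds hgy)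

end meas

section cas

variable {X D : Type} [TopologicalSpace X] [T2Space X] [LocallyCompactSpace X]
  [SecondCountableTopology X] [MeasurableSpace X] [BorelSpace X]
  [TopologicalSpace D] [T2Space D] [LocallyCompactSpace D]
  [SecondCountableTopology D] [MeasurableSpace D] [BorelSpace D] (C : CAS X D)

lemma mem_supp (x y : X) : y ∈ (C.K x (C.π x y)).support := (C.partition x y _).2 rfl

lemma pi_self (x : X) : C.π x x = C.H.e := by
  rw [← C.partition x x, C.K_e, support_dirac]
  rfl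

lemma bar_e : C.H.bar C.H.e = C.H.e := by
  rw [eq_comm, ← C.H.mem_supp, C.H.e_conv, support_dirac]
  rfl

/-- Spheres around the points of a compact set, with radii in a compact set, lie in a compact
set. -/
lemma sph {N : Set X} (hN : IsCompact N) {L : Set D} (hL : IsCompact L) :
    ∃ K : Set X, IsCompact K ∧ ∀ x ∈ N, ∀ y, C.π x y ∈ L → y ∈ K := by
  obtain ⟨K, hK, h⟩ := C.supp_cont.cover (fun p => C.compact_supp p.1 p.2) (hN.prod hL)
  exact ⟨K, hK, fun x hx y hy => h (x, C.π x y) ⟨hx, hy⟩ (mem_supp C x y)⟩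

lemma cc_pi {f : D → ℝ} (hf : CC f) (x : X) : CC fun y => f (C.π x y) := by
  obtain ⟨K, hK, h⟩ := sph C (isCompact_singleton (x := x)) hf.2
  refine ⟨hf.1.comp (C.π_cont.comp (by fun_prop : Continuous fun y : X => (x, y))),
    HasCompactSupport.intro hK fun y hy => ?_⟩
  by_contra hne
  exact hy (h x rfl y (subset_tsupport _ hne))

lemma app_cont {g : X → ℝ} (hg : CC g) : Continuous fun p : X × D => app C.K p.2 g p.1 :=
  C.weak g hg.cb

lemma app_zero {g : X → ℝ} {x : X} {h : D} (hz : ∀ z, C.π x z = h → g z = 0) :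
    app C.K h g x = 0 :=
  int_zero fun z hz' => hz z ((C.partition x z h).1 hz')

lemma app_one {g : X → ℝ} {x : X} {h : D} (hz : ∀ z, C.π x z = h → g z = 1) :
    app C.K h g x = 1 := by
  have := C.prob x h
  exact int_one fun z hz' => hz z ((C.partition x z h).1 hz')

lemma app_pos {g : X → ℝ} (hg : CC g) (h0 : ∀ z, 0 ≤ g z) {x y : X} (hgy : g y ≠ 0) :
    0 < app C.K (C.π x y) g x := by
  have := C.prob x (C.π x y)
  exact int_pos hg h0 (mem_supp C x y) hgy

/-- The partition map is symmetric. -/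
lemma pi_symm (x y : X) : C.π y x = C.H.bar (C.π x y) := by
  by_contra hne
  obtain ⟨ω, h1, h2, h3⟩ := C.exists_omega
  set h := C.π x y with hh
  have hopen : IsOpen {p : X × X | C.π p.1 p.2 ≠ C.H.bar h} :=
    isOpen_ne_fun C.π_cont continuous_const
  obtain ⟨U, V, hU, hV, hyU, hxV, hUV⟩ := isOpen_prod_iff.1 hopen y x hne
  obtain ⟨g, hg, g1, g2, g3⟩ := urysohn (isCompact_singleton (x := y)) hU (by simpa using hyU)
  obtain ⟨f, hf, f1, f2, f3⟩ := urysohn (isCompact_singleton (x := x)) hV (by simpa using hxV)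
  have e1 := h3 h f g hf hg
  have e2 : ∫ z, app C.K (C.H.bar h) f z * g z ∂ω = 0 := by
    have : (fun z => app C.K (C.H.bar h) f z * g z) = fun _ => 0 := by
      funext z
      by_cases hz : g z = 0
      · rw [hz, mul_zero]
      · have hzU := g2 z hz
        rw [app_zero C (fun w hw => ?_), zero_mul]
        by_contra hfw
        exact hUV (show ((z, w) : X × X) ∈ U ×ˢ V from ⟨hzU, f2 w hfw⟩) hw
    rw [this]
    simp
  rw [e2] at e1
  have hc : Continuous fun z => f z * app C.K h g z :=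
    hf.1.mul ((app_cont C hg).comp (by fun_prop : Continuous fun z : X => (z, h)))
  have e3 : 0 < ∫ z, f z * app C.K h g z ∂ω := by
    refine hc.integral_pos_of_hasCompactSupport_nonneg_nonzero (x := x) hf.2.mul_right
      (fun z => mul_nonneg (f3 z) (integral_nonneg g3)) ?_
    rw [f1 x rfl, one_mul]
    exact (app_pos C hg g3 (by rw [g1 y rfl]; exact one_ne_zero)).ne'
  exact e3.ne e1

lemma cc_app {g : X → ℝ} (hg : CC g) (h : D) : CC fun x => app C.K h g x := by
  obtain ⟨K, hK, hs⟩ := sph C hg.2 (isCompact_singleton (x := C.H.bar h))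
  refine ⟨(app_cont C hg).comp (by fun_prop : Continuous fun z : X => (z, h)),
    HasCompactSupport.intro hK fun x hx => app_zero C fun z hz => ?_⟩
  by_contra hne
  refine hx (hs z (subset_tsupport _ hne) x ?_)
  rw [pi_symm, hz]
  rfl

lemma bar_homeo {f : D → ℝ} (hf : CC f) : CC fun h => f (C.H.bar h) := by
  let e : D ≃ₜ D := ⟨⟨C.H.bar, C.H.bar, C.H.bar_bar, C.H.bar_bar⟩, C.H.bar_cont, C.H.bar_cont⟩
  exact ⟨hf.1.comp C.H.bar_cont, hf.2.comp_homeomorph e⟩

lemma val_cont {f : D → ℝ} (hf : CC f) : Continuous fun p : D × D => C.H.val f p.1 p.2 :=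
  C.H.weak f hf.cb

lemma val_e {f : D → ℝ} (hf : Continuous f) (h : D) : C.H.val f C.H.e h = f h := by
  unfold Hypergroup.val
  rw [C.H.e_conv, integral_dirac]

end cas

end Q24.Cas
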