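import Mathlib

/-!
# Continuous association schemes
-/

set_option autoImplicit false

open MeasureTheory Topology Set Function

namespace Q24.Cas

/-- Continuity of a set valued map (with compact values) for the Hausdorff (Vietoris) topology. -/
def VietCont {Y X : Type} [TopologicalSpace Y] [TopologicalSpace X] (S : Y → Set X) : Prop :=
  (∀ U : Set X, IsOpen U → IsOpen {y | S y ⊆ U}) ∧
    ∀ U : Set X, IsOpen U → IsOpen {y | (S y ∩ U).Nonempty}

/-- Bounded continuous functions. -/
def CB {X : Type} [TopologicalSpace X] (f : X → ℝ) : Prop := Continuous f ∧ ∃ C, ∀ x, |f x| ≤ C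

/-- Continuous functions with compact support. -/
def CC {X : Type} [TopologicalSpace X] (f : X → ℝ) : Prop := Continuous f ∧ HasCompactSupport f

/-- A hypergroup, given by the convolutions `conv x y` of point masses. -/
structure Hypergroup (D : Type) [TopologicalSpace D] [MeasurableSpace D] where
  conv : D → D → Measure D
  prob : ∀ x y, IsProbabilityMeasure (conv x y)
  weak : ∀ f : D → ℝ, CB f → Continuous fun p : D × D => ∫ t, f t ∂conv p.1 p.2
  compact_supp : ∀ x y, IsCompact (conv x y).support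
  supp_cont : VietCont fun p : D × D => (conv p.1 p.2).support
  assoc : ∀ f : D → ℝ, CB f → ∀ x y z,
    ∫ t, (∫ s, f s ∂conv t z) ∂conv x y = ∫ t, (∫ s, f s ∂conv x t) ∂conv y z
  e : D
  e_conv : ∀ x, conv e x = Measure.dirac x
  conv_e : ∀ x, conv x e = Measure.dirac x
  bar : D → D
  bar_cont : Continuous bar
  bar_bar : ∀ x, bar (bar x) = x
  mem_supp : ∀ x y, e ∈ (conv x y).support ↔ y = bar x
  bar_conv : ∀ x y, (conv x y).map bar = conv (bar y) (bar x)

/-- `f (x * y)`. -/
noncomputable def Hypergroup.val {D : Type} [TopologicalSpace D] [MeasurableSpace D]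
    (H : Hypergroup D) (f : D → ℝ) (x y : D) : ℝ := ∫ t, f t ∂H.conv x y

/-- `ν` is a left Haar measure. -/
def Hypergroup.LeftHaar {D : Type} [TopologicalSpace D] [MeasurableSpace D]
    (H : Hypergroup D) (ν : Measure D) : Prop :=
  ν ≠ 0 ∧ IsFiniteMeasureOnCompacts ν ∧ ∀ f : D → ℝ, CC f → ∀ x,
    ∫ y, H.val f x y ∂ν = ∫ y, f y ∂ν

/-- `(T_h f) (x)` for a kernel `K`. -/
noncomputable def app {X D : Type} [MeasurableSpace X] (K : X → D → Measure X) (h : D)
    (f : X → ℝ) (x : X) : ℝ := ∫ y, f y ∂K x h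

/-- Condition 4 of the definition of a continuous association scheme for the measure `ω`. -/
def IsOmega {X D : Type} [TopologicalSpace X] [MeasurableSpace X] [TopologicalSpace D]
    [MeasurableSpace D] (H : Hypergroup D) (K : X → D → Measure X) (ω : Measure X) : Prop :=
  IsFiniteMeasureOnCompacts ω ∧ ω.IsOpenPosMeasure ∧ ∀ h, ∀ f g : X → ℝ, CC f → CC g →
    ∫ x, app K (H.bar h) f x * g x ∂ω = ∫ x, f x * app K h g x ∂ω

/-- A continuous association scheme. -/
structure CAS (X D : Type) [TopologicalSpace X] [MeasurableSpace X] [TopologicalSpace D]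
    [MeasurableSpace D] where
  nonempty : Nonempty X
  H : Hypergroup D
  K : X → D → Measure X
  prob : ∀ x h, IsProbabilityMeasure (K x h)
  meas : ∀ A : Set X, MeasurableSet A → Measurable fun p : X × D => K p.1 p.2 A
  weak : ∀ f : X → ℝ, CB f → Continuous fun p : X × D => app K p.2 f p.1
  compact_supp : ∀ x h, IsCompact (K x h).support
  supp_cont : VietCont fun p : X × D => (K p.1 p.2).support
  π : X → X → D
  π_cont : Continuous fun p : X × X => π p.1 p.2
  partition : ∀ x y h, y ∈ (K x h).support ↔ π x y = h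
  comp : ∀ h k x, ∀ A : Set X, MeasurableSet A →
    ∫⁻ y, K y k A ∂K x h = ∫⁻ l, K x l A ∂H.conv h k
  K_e : ∀ x, K x H.e = Measure.dirac x
  exists_omega : ∃ ω : Measure X, IsOmega H K ω

section

variable {X D : Type} [TopologicalSpace X] [MeasurableSpace X] [TopologicalSpace D]
  [MeasurableSpace D]

/-- The scheme is commutative. -/
def CAS.Comm (C : CAS X D) : Prop := ∀ x y, C.H.conv x y = C.H.conv y x

/-- Property (T1). -/
def CAS.T1 (C : CAS X D) : Prop := ∀ h x, ∀ f : D → ℝ, CC f → ∀ y,
  C.H.val f (C.π x y) h = app C.K h (fun z => f (C.π x z)) y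

/-- `T_f = T^{f ∘ π}` for all `f ∈ C_c(D)`, for the measures `ω` on `X` and `ν` on `D`. -/
def CAS.Formula (C : CAS X D) (ω : Measure X) (ν : Measure D) : Prop :=
  ∀ f : D → ℝ, CC f → ∀ g : X → ℝ, CC g → ∀ x,
    ∫ h, app C.K h g x * f h ∂ν = ∫ y, f (C.π x y) * g y ∂ω

/-- Property (T2). -/
def CAS.T2 (C : CAS X D) : Prop := ∃ (ω : Measure X) (ν : Measure D), IsOmega C.H C.K ω ∧
  C.H.LeftHaar ν ∧ C.Formula ω ν

end

end Q24.Cas
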