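import Pool.Agent.Q24.Cas.Basic

/-!
# The affine group of the line
-/

set_option autoImplicit false

open MeasureTheory Topology Set Function

namespace Q24.Cas.Ex

/-- The plane. -/
abbrev G := ℝ × ℝ

/-- Multiplication of the group `ℝ ⋊ ℝ`. -/
noncomputable def m (x y : G) : G := (x.1 + y.1, x.2 + Real.exp x.1 * y.2)

/-- Inversion. -/
noncomputable def i (x : G) : G := (-x.1, -(Real.exp (-x.1) * x.2))

lemma m_assoc (x y z : G) : m (m x y) z = m x (m y z) := by
  unfold m
  ext
  · simp only; ring
  · simp only [Real.exp_add]; ring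

lemma e_m (x : G) : m (0, 0) x = x := by
  unfold m
  ext <;> simp

lemma m_e (x : G) : m x (0, 0) = x := by
  unfold m
  ext <;> simp

lemma i_m (x : G) : m (i x) x = (0, 0) := by
  unfold m i
  ext <;> simp

lemma m_i (x : G) : m x (i x) = (0, 0) := by
  unfold m i
  ext
  · simp
  · simp only
    rw [mul_neg, ← mul_assoc, ← Real.exp_add]
    simp

lemma i_i (x : G) : i (i x) = x := by
  have h := m_assoc (i (i x)) (i x) x
  rw [i_m (i x), i_m x, e_m, m_e] at h
  exact h.symm

lemma i_unique {x y : G} (h : m x y = (0, 0)) : y = i x := by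
  have h1 := m_assoc (i x) x y
  rw [i_m, e_m, h, m_e] at h1
  exact h1

lemma i_mul (x y : G) : i (m x y) = m (i y) (i x) := by
  symm
  apply i_unique
  rw [m_assoc, ← m_assoc y, m_i, e_m, m_i]

lemma m_cont : Continuous fun p : G × G => m p.1 p.2 := by
  unfold m
  fun_prop

lemma i_cont : Continuous i := by
  unfold i
  fun_prop

lemma viet {Y : Type} [TopologicalSpace Y] {f : Y → G} (hf : Continuous f) :
    VietCont fun y => (Measure.dirac (f y)).support := by
  simp_rw [support_dirac]
  constructor
  · intro U hU
    have h : {y | ({f y} : Set G) ⊆ U} = f ⁻¹' U := by ext; simp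
    rw [h]
    exact hU.preimage hf
  · intro U hU
    have h : {y | (({f y} : Set G) ∩ U).Nonempty} = f ⁻¹' U := by ext; simp
    rw [h]
    exact hU.preimage hf

/-- The hypergroup of the group. -/
noncomputable def H : Hypergroup G where
  conv x y := Measure.dirac (m x y)
  prob x y := inferInstance
  weak f hf := by
    simp_rw [integral_dirac]
    exact hf.1.comp m_cont
  compact_supp x y := by
    rw [support_dirac]
    exact isCompact_singleton
  supp_cont := viet m_cont
  assoc f hf x y z := by
    simp_rw [integral_dirac]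
    rw [m_assoc]
  e := (0, 0)
  e_conv x := by rw [e_m]
  conv_e x := by rw [m_e]
  bar := i
  bar_cont := i_cont
  bar_bar := i_i
  mem_supp x y := by
    rw [support_dirac, mem_singleton_iff]
    constructor
    · intro h
      exact i_unique h.symm
    · rintro rfl
      rw [m_i]
  bar_conv x y := by
    rw [Measure.map_dirac' i_cont.measurable, i_mul]

lemma mp (h : G) : MeasurePreserving (fun x : G => m x h) volume volume := by
  unfold m
  have h1 : MeasurePreserving (fun s : ℝ => s + h.1) volume volume :=
    measurePreserving_add_right volume h.1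
  exact h1.skew_product (g := fun s b => b + Real.exp s * h.2) (by fun_prop)
    (Filter.Eventually.of_forall fun s => map_add_right_eq_self volume _)

/-- Right multiplication as a homeomorphism. -/
noncomputable def rm (h : G) : G ≃ₜ G where
  toFun x := m x h
  invFun x := m x (i h)
  left_inv x := by simp only; rw [m_assoc, m_i, m_e]
  right_inv x := by simp only; rw [m_assoc, i_m, m_e]
  continuous_toFun := m_cont.comp (by fun_prop : Continuous fun x : G => (x, h))
  continuous_invFun := m_cont.comp (by fun_prop : Continuous fun x : G => (x, i h))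

/-- Left multiplication as a homeomorphism. -/
noncomputable def lm (h : G) : G ≃ₜ G where
  toFun x := m h x
  invFun x := m (i h) x
  left_inv x := by simp only; rw [← m_assoc, i_m, e_m]
  right_inv x := by simp only; rw [← m_assoc, m_i, e_m]
  continuous_toFun := m_cont.comp (by fun_prop : Continuous fun x : G => (h, x))
  continuous_invFun := m_cont.comp (by fun_prop : Continuous fun x : G => (i h, x))

lemma cc_lm {f : G → ℝ} (hf : CC f) (a : G) : CC fun y => f (m a y) :=
  ⟨hf.1.comp (lm a).continuous, hf.2.comp_homeomorph (lm a)⟩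

lemma int_rm (h : G) (F : G → ℝ) : ∫ x, F (m x h) = ∫ x, F x :=
  (mp h).integral_comp (rm h).measurableEmbedding F

/-- The continuous association scheme of the group. -/
noncomputable def C : CAS G G where
  nonempty := inferInstance
  H := H
  K x h := Measure.dirac (m x h)
  prob x h := inferInstance
  meas A hA := by
    have h1 : (fun p : G × G => Measure.dirac (m p.1 p.2) A) =
        fun p => A.indicator 1 (m p.1 p.2) := by
      funext p
      rw [Measure.dirac_apply' _ hA]
    rw [h1]
    exact (measurable_one.indicator hA).comp m_cont.measurable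
  weak f hf := by
    unfold app
    simp_rw [integral_dirac]
    exact hf.1.comp m_cont
  compact_supp x h := by
    rw [support_dirac]
    exact isCompact_singleton
  supp_cont := viet m_cont
  π x y := m (i x) y
  π_cont := m_cont.comp ((i_cont.comp continuous_fst).prodMk continuous_snd)
  partition x y h := by
    rw [support_dirac, mem_singleton_iff]
    constructor
    · rintro rfl
      rw [← m_assoc, i_m, e_m]
    · rintro rfl
      rw [← m_assoc, m_i, e_m]
  comp h k x A hA := by
    change ∫⁻ y, Measure.dirac (m y k) A ∂Measure.dirac (m x h) =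
      ∫⁻ l, Measure.dirac (m x l) A ∂Measure.dirac (m h k)
    rw [lintegral_dirac, lintegral_dirac, m_assoc]
  K_e x := by
    change Measure.dirac (m x (0, 0)) = _
    rw [m_e]
  exists_omega := by
    refine ⟨volume, inferInstance, inferInstance, fun h f g hf hg => ?_⟩
    unfold app
    simp_rw [integral_dirac]
    change ∫ x, f (m x (i h)) * g x = ∫ x, f x * g (m x h)
    rw [← int_rm h (fun x => f (m x (i h)) * g x)]
    congr 1
    funext x
    rw [m_assoc, m_i, m_e]

lemma t1 : C.T1 := by
  intro h x f _ y
  change ∫ t, f t ∂Measure.dirac (m (m (i x) y) h) =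
    ∫ z, f (m (i x) z) ∂Measure.dirac (m y h)
  rw [integral_dirac, integral_dirac, m_assoc]

/-- Tent function. -/
noncomputable def tent (t : ℝ) : ℝ := max 0 (1 - |t|)

lemma tent_cont : Continuous tent := by
  unfold tent
  fun_prop

lemma tent_nonneg (t : ℝ) : 0 ≤ tent t := le_max_left _ _

lemma tent_zero {t : ℝ} (h : 1 ≤ |t|) : tent t = 0 := by
  unfold tent
  exact max_eq_left (by linarith)

/-- The test function. -/
noncomputable def F (r : ℝ) (x : G) : ℝ := tent x.1 * tent (r * x.2)

lemma F_cc {r : ℝ} (hr : 0 < r) : CC (F r) := by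
  refine ⟨?_, ?_⟩
  · unfold F
    exact (tent_cont.comp continuous_fst).mul
      (tent_cont.comp (continuous_const.mul continuous_snd))
  · refine HasCompactSupport.intro (K := Icc (-1) 1 ×ˢ Icc (-(1 / r)) (1 / r))
      (isCompact_Icc.prod isCompact_Icc) fun x hx => ?_
    unfold F
    rw [mem_prod, not_and_or] at hx
    rcases hx with hx | hx
    · rw [show tent x.1 = 0 from tent_zero ?_, zero_mul]
      by_contra h
      push Not at h
      rw [abs_lt] at h
      exact hx ⟨h.1.le, h.2.le⟩
    · rw [show tent (r * x.2) = 0 from tent_zero ?_, mul_zero]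
      by_contra h
      push Not at h
      rw [abs_mul, abs_of_pos hr] at h
      have h1 : |x.2| < 1 / r := by
        rw [lt_div_iff₀ hr]
        linarith
      rw [abs_lt] at h1
      exact hx ⟨h1.1.le, h1.2.le⟩

lemma not_t2 : ¬ C.T2 := by
  rintro ⟨ω, ν, ⟨i1, i2, h3⟩, ⟨-, j1, hν⟩, hf⟩
  have h3' : ∀ (h : G) (f g : G → ℝ), CC f → CC g →
      ∫ x, f (m x (i h)) * g x ∂ω = ∫ x, f x * g (m x h) ∂ω := by
    intro h f g hf hg
    have := h3 h f g hf hg
    unfold app at this
    change ∫ x, (∫ y, f y ∂Measure.dirac (m x (i h))) * g x ∂ω =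
      ∫ x, f x * (∫ y, g y ∂Measure.dirac (m x h)) ∂ω at this
    simp_rw [integral_dirac] at this
    exact this
  have hν' : ∀ (f : G → ℝ), CC f → ∀ x, ∫ y, f (m x y) ∂ν = ∫ y, f y ∂ν := by
    intro f hf x
    have := hν f hf x
    unfold Hypergroup.val at this
    change ∫ y, (∫ t, f t ∂Measure.dirac (m x y)) ∂ν = _ at this
    simp_rw [integral_dirac] at this
    exact this
  have hf' : ∀ (f g : G → ℝ), CC f → CC g → ∫ h, g h * f h ∂ν = ∫ y, f y * g y ∂ω := by
    intro f g hf1 hg1
    have := hf f hf1 g hg1 (0, 0)
    unfold app at this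
    change ∫ h, (∫ y, g y ∂Measure.dirac (m (0, 0) h)) * f h ∂ν =
      ∫ y, f (m (i (0, 0)) y) * g y ∂ω at this
    simp_rw [integral_dirac] at this
    have hi : i (0, 0) = (0, 0) := by unfold i; ext <;> simp
    rw [hi] at this
    simp_rw [e_m] at this
    exact this
  -- the two measures have the same integrals
  have eq1 : ∀ f : G → ℝ, CC f → ∫ y, f y ∂ν = ∫ y, f y ∂ω := by
    intro f hf1
    obtain ⟨g, hg, g1, -, -⟩ := urysohn hf1.2.isCompact isOpen_univ (subset_univ _)
    have h1 := hf' f g hf1 hg
    have e1 : (fun h => g h * f h) = f := by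
      funext h
      by_cases hh : f h = 0
      · rw [hh, mul_zero]
      · rw [g1 h (subset_tsupport _ hh), one_mul]
    have e2 : (fun h => f h * g h) = f := by
      funext h
      by_cases hh : f h = 0
      · rw [hh, zero_mul]
      · rw [g1 h (subset_tsupport _ hh), mul_one]
    rw [e1, e2] at h1
    exact h1
  -- right invariance
  have right : ∀ (f : G → ℝ), CC f → ∀ h, ∫ y, f (m y h) ∂ω = ∫ y, f y ∂ω := by
    intro f hf1 h
    obtain ⟨g, hg, g1, -, -⟩ := urysohn (hf1.2.isCompact.image (rm (i h)).continuous)
      isOpen_univ (subset_univ _)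
    have h1 := h3' (i h) f g hf1 hg
    rw [i_i] at h1
    have e1 : (fun x => f (m x h) * g x) = fun x => f (m x h) := by
      funext x
      by_cases hh : f (m x h) = 0
      · rw [hh, zero_mul]
      · rw [g1 x ⟨m x h, subset_tsupport _ hh, ?_⟩, mul_one]
        change m (m x h) (i h) = x
        rw [m_assoc, m_i, m_e]
    have e2 : (fun x => f x * g (m x (i h))) = f := by
      funext x
      by_cases hh : f x = 0
      · rw [hh, zero_mul]
      · rw [g1 (m x (i h)) ⟨x, subset_tsupport _ hh, rfl⟩, mul_one]
    rw [e1, e2] at h1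
    exact h1
  -- left invariance
  have left : ∀ (f : G → ℝ), CC f → ∀ a, ∫ y, f (m a y) ∂ω = ∫ y, f y ∂ω := by
    intro f hf1 a
    rw [← eq1 _ (cc_lm hf1 a), ← eq1 f hf1, hν' f hf1 a]
  -- conjugation
  set t : ℝ := -Real.log 2 with ht
  have het : Real.exp t = 1 / 2 := by
    rw [ht, Real.exp_neg, Real.exp_log two_pos]
    norm_num
  have F1 := F_cc one_pos
  have F2 := F_cc (half_pos one_pos)
  have conj : ∫ y, F (1 / 2) y ∂ω = ∫ y, F 1 y ∂ω := by
    rw [← left _ F1 (t, 0), ← right _ (cc_lm F1 (t, 0)) (-t, 0)]
    congr 1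
    funext y
    unfold F m
    simp only [het]
    congr 2
    · ring
    · ring
  have hge : ∀ x, 0 ≤ F (1 / 2) x - F 1 x := by
    intro x
    unfold F
    rw [← mul_sub]
    refine mul_nonneg (tent_nonneg _) (sub_nonneg.2 ?_)
    unfold tent
    refine max_le_max le_rfl ?_
    rw [abs_mul, abs_mul, abs_of_pos (by norm_num : (0 : ℝ) < 1 / 2), abs_one]
    linarith [abs_nonneg x.2]
  have hpos : 0 < ∫ x, (F (1 / 2) x - F 1 x) ∂ω := by
    refine (F2.1.sub F1.1).integral_pos_of_hasCompactSupport_nonneg_nonzero (x := (0, 1))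
      (F2.2.sub F1.2) hge ?_
    unfold F tent
    norm_num
  rw [integral_sub (F2.1.integrable_of_hasCompactSupport F2.2)
    (F1.1.integrable_of_hasCompactSupport F1.2), conj, sub_self] at hpos
  exact lt_irrefl _ hpos

end Q24.Cas.Ex
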