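import Pool.Agent.Q24.Cas.Main

set_option autoImplicit false
set_option linter.unusedSectionVars false

open MeasureTheory Topology Set Function

namespace Q24.Cas

variable {X D : Type} [TopologicalSpace X] [T2Space X] [LocallyCompactSpace X]
  [SecondCountableTopology X] [MeasurableSpace X] [BorelSpace X]
  [TopologicalSpace D] [T2Space D] [LocallyCompactSpace D]
  [SecondCountableTopology D] [MeasurableSpace D] [BorelSpace D] (C : CAS X D)
  {ω : Measure X}

/-- `Â(h)`. -/
noncomputable def hat (ω : Measure X) (x' : X) (F G : D → ℝ) (h : D) : ℝ :=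
  ∫ y, G (C.π x' y) * C.H.val F h (C.H.bar (C.π x' y)) ∂ω

lemma hat_cont (hω : IsOmega C.H C.K ω) {F G : D → ℝ} (hF : CC F) (hG : CC G) (x' : X) :
    Continuous (hat C ω x' F G) := by
  have i1 := hω.1
  have k : Continuous (uncurry fun (h : D) (y : X) => C.H.val F h (C.H.bar (C.π x' y))) :=
    (val_cont C hF).comp (continuous_fst.prodMk
      (C.H.bar_cont.comp ((pi_cont C x').comp continuous_snd)))
  exact par (cc_pi C hG x') k

lemma double (hω : IsOmega C.H C.K ω) (hT : C.T1) (hc : C.Comm) {φ F G : D → ℝ} (hφ : CC φ)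
    (hF : CC F) (hG : CC G) (x x' : X) :
    ∫ y, φ (C.π x y) * hat C ω x' F G (C.π x y) ∂ω =
      ∫ y, φ (C.π x' y) * hat C ω x G F (C.π x' y) ∂ω := by
  have i1 := hω.1
  have hπ := pi_cont C x
  have hπ' := pi_cont C x'
  have gen : ∀ {F G : D → ℝ}, CC F → CC G → ∀ x x' : X,
      ∫ y, φ (C.π x y) * hat C ω x' F G (C.π x y) ∂ω =
        ∫ w, ∫ z, F (C.π x w) * G (C.π x' z) * C.H.val φ (C.π x w) (C.π x' z) ∂ω ∂ω := by
    intro F G hF hG x x'
    have hπ := pi_cont C x
    have hπ' := pi_cont C x'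
    have k1 : Continuous (uncurry fun (w z : X) => C.H.val φ (C.π x w) (C.π x' z)) :=
      (val_cont C hφ).comp ((hπ.comp continuous_fst).prodMk (hπ'.comp continuous_snd))
    have k2 : Continuous (uncurry fun (w z : X) =>
        C.H.val F (C.π x w) (C.H.bar (C.π x' z))) :=
      (val_cont C hF).comp ((hπ.comp continuous_fst).prodMk
        (C.H.bar_cont.comp (hπ'.comp continuous_snd)))
    rw [swap2 (cc_pi C hF x) (cc_pi C hG x') k1]
    have e1 : ∀ z, ∫ w, F (C.π x w) * G (C.π x' z) * C.H.val φ (C.π x w) (C.π x' z) ∂ω =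
        ∫ w, φ (C.π x w) * G (C.π x' z) * C.H.val F (C.π x w) (C.H.bar (C.π x' z)) ∂ω := by
      intro z
      have e2 := adjD C hω hT hφ hF x (C.π x' z)
      have e3 : (fun w => F (C.π x w) * G (C.π x' z) * C.H.val φ (C.π x w) (C.π x' z)) =
          fun w => G (C.π x' z) * (C.H.val φ (C.π x w) (C.π x' z) * F (C.π x w)) := by
        funext w; ring
      have e4 : (fun w => φ (C.π x w) * G (C.π x' z) *
          C.H.val F (C.π x w) (C.H.bar (C.π x' z))) =
          fun w => G (C.π x' z) * (φ (C.π x w) * C.H.val F (C.π x w) (C.H.bar (C.π x' z))) := by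
        funext w; ring
      rw [e3, e4, integral_const_mul, integral_const_mul, e2]
    simp_rw [e1]
    rw [← swap2 (cc_pi C hφ x) (cc_pi C hG x') k2]
    congr 1
    funext w
    unfold hat
    rw [← integral_const_mul]
    congr 1
    funext z
    ring
  rw [gen hF hG x x', gen hG hF x' x]
  have k1 : Continuous (uncurry fun (w z : X) => C.H.val φ (C.π x w) (C.π x' z)) :=
    (val_cont C hφ).comp ((hπ.comp continuous_fst).prodMk (hπ'.comp continuous_snd))
  rw [swap2 (cc_pi C hF x) (cc_pi C hG x') k1]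
  congr 1
  funext z
  congr 1
  funext w
  rw [val_comm C hc φ (C.π x w)]
  ring

/-- Uniqueness of the measures up to a factor. -/
lemma uniq (hω : IsOmega C.H C.K ω) (hT : C.T1) (hc : C.Comm) {F F0 : D → ℝ} (hF : CC F)
    (hF0 : CC F0) (x x' : X) :
    (∫ y, F (C.π x' y) ∂ω) * ∫ y, F0 (C.π x y) ∂ω =
      (∫ y, F0 (C.π x' y) ∂ω) * ∫ y, F (C.π x y) ∂ω := by
  have i1 := hω.1
  obtain ⟨G, hG, g1, -, -⟩ := urysohn ((hF.2.isCompact.union hF0.2.isCompact).image C.H.bar_cont)
    isOpen_univ (subset_univ _)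
  -- values at `e`
  have val1 : ∀ {F' : D → ℝ}, CC F' → (tsupport F' ⊆ tsupport F ∪ tsupport F0) →
      hat C ω x' F' G C.H.e = ∫ y, F' (C.π x' y) ∂ω := by
    intro F' hF' hsub
    rw [← barinv C hω hT hc hF' x']
    unfold hat
    congr 1
    funext y
    rw [val_e C hF'.1]
    by_cases hz : F' (C.H.bar (C.π x' y)) = 0
    · rw [hz, mul_zero]
    · rw [g1 _ ⟨_, hsub (subset_tsupport _ hz), C.H.bar_bar _⟩, one_mul]
  have val2 : ∀ {F' : D → ℝ}, CC F' → (tsupport F' ⊆ tsupport F ∪ tsupport F0) →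
      hat C ω x G F' C.H.e = ∫ y, F' (C.π x y) ∂ω := by
    intro F' hF' hsub
    unfold hat
    congr 1
    funext y
    rw [val_e C hG.1]
    by_cases hz : F' (C.π x y) = 0
    · rw [hz, zero_mul]
    · rw [g1 _ ⟨_, hsub (subset_tsupport _ hz), rfl⟩, mul_one]
  have hA := hat_cont C hω hF hG x'
  have hA0 := hat_cont C hω hF0 hG x'
  have hB := hat_cont C hω hG hF x
  have hB0 := hat_cont C hω hG hF0 x
  have key : ∀ φ : D → ℝ, CC φ → ∫ y, φ (C.π x y) *
      ((fun y => hat C ω x G F0 (C.π x y) * hat C ω x' F G (C.π x y) -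
        hat C ω x G F (C.π x y) * hat C ω x' F0 G (C.π x y)) y) ∂ω = 0 := by
    intro φ hφ
    have d1 := double C hω hT hc (hφ.mul_left hB0) hF hG x x'
    have d2 := double C hω hT hc (hφ.mul_left hB) hF0 hG x x'
    have e1 : ∫ y, φ (C.π x' y) * hat C ω x G F0 (C.π x' y) * hat C ω x G F (C.π x' y) ∂ω =
        ∫ y, φ (C.π x' y) * hat C ω x G F (C.π x' y) * hat C ω x G F0 (C.π x' y) ∂ω := by
      congr 1
      funext y
      ring
    have e2 : (fun y => φ (C.π x y) *
      ((fun y => hat C ω x G F0 (C.π x y) * hat C ω x' F G (C.π x y) -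
        hat C ω x G F (C.π x y) * hat C ω x' F0 G (C.π x y)) y)) =
        fun y => φ (C.π x y) * hat C ω x G F0 (C.π x y) * hat C ω x' F G (C.π x y) -
          φ (C.π x y) * hat C ω x G F (C.π x y) * hat C ω x' F0 G (C.π x y) := by
      funext y
      ring
    have hπ := pi_cont C x
    have j1 : Integrable (fun y => φ (C.π x y) * hat C ω x G F0 (C.π x y) *
        hat C ω x' F G (C.π x y)) ω :=
      integrable_cc (((cc_pi C hφ x).mul_left (hB0.comp hπ)).mul_left (hA.comp hπ))
    have j2 : Integrable (fun y => φ (C.π x y) * hat C ω x G F (C.π x y) *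
        hat C ω x' F0 G (C.π x y)) ω :=
      integrable_cc (((cc_pi C hφ x).mul_left (hB.comp hπ)).mul_left (hA0.comp hπ))
    rw [e2, integral_sub j1 j2, d1, d2, e1, sub_self]
  have hπ := pi_cont C x
  have h0 := loc C hω x (((hB0.comp hπ).mul (hA.comp hπ)).sub ((hB.comp hπ).mul
    (hA0.comp hπ))) key
  have h1 : hat C ω x G F0 C.H.e * hat C ω x' F G C.H.e =
      hat C ω x G F C.H.e * hat C ω x' F0 G C.H.e := by
    have : hat C ω x G F0 (C.π x x) * hat C ω x' F G (C.π x x) -
      hat C ω x G F (C.π x x) * hat C ω x' F0 G (C.π x x) = 0 := h0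
    rw [pi_self] at this
    linarith
  rw [val1 hF subset_union_left, val1 hF0 subset_union_right, val2 hF subset_union_left,
    val2 hF0 subset_union_right] at h1
  linarith

/-- `S f g x`. -/
noncomputable def S (ω : Measure X) (x0 : X) (f : D → ℝ) (g : X → ℝ) (x : X) : ℝ :=
  ∫ w, f (C.π x0 w) * app C.K (C.π x0 w) g x ∂ω

lemma S_cont (hω : IsOmega C.H C.K ω) {f : D → ℝ} (hf : CC f) {g : X → ℝ} (hg : CC g) (x0 : X) :
    Continuous (S C ω x0 f g) := by
  have i1 := hω.1
  have k : Continuous (uncurry fun (x w : X) => app C.K (C.π x0 w) g x) :=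
    (app_cont C hg).comp (continuous_fst.prodMk ((pi_cont C x0).comp continuous_snd))
  exact par (cc_pi C hf x0) k

lemma S_adj (hω : IsOmega C.H C.K ω) (hT : C.T1) (hc : C.Comm) {f : D → ℝ} (hf : CC f)
    {g k : X → ℝ} (hg : CC g) (hk : CC k) (x0 : X) :
    ∫ x, k x * S C ω x0 f g x ∂ω = ∫ x, g x * S C ω x0 (fun h => f (C.H.bar h)) k x ∂ω := by
  have i1 := hω.1
  have hπ := pi_cont C x0
  have hfx := cc_pi C hf x0
  have k1 : Continuous (uncurry fun (w x : X) => app C.K (C.π x0 w) g x) :=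
    (app_cont C hg).comp (continuous_snd.prodMk (hπ.comp continuous_fst))
  have k2 : Continuous (uncurry fun (w x : X) => app C.K (C.H.bar (C.π x0 w)) k x) :=
    (app_cont C hk).comp (continuous_snd.prodMk (C.H.bar_cont.comp (hπ.comp continuous_fst)))
  have e1 : ∫ x, k x * S C ω x0 f g x ∂ω =
      ∫ w, ∫ x, f (C.π x0 w) * k x * app C.K (C.π x0 w) g x ∂ω ∂ω := by
    rw [swap2 hfx hk k1]
    congr 1
    funext x
    unfold S
    rw [← integral_const_mul]
    congr 1
    funext w
    ring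
  have e2 : ∀ w, ∫ x, f (C.π x0 w) * k x * app C.K (C.π x0 w) g x ∂ω =
      ∫ x, f (C.π x0 w) * g x * app C.K (C.H.bar (C.π x0 w)) k x ∂ω := by
    intro w
    have e3 := hω.2.2 (C.π x0 w) k g hk hg
    have e4 : (fun x => f (C.π x0 w) * k x * app C.K (C.π x0 w) g x) =
        fun x => f (C.π x0 w) * (k x * app C.K (C.π x0 w) g x) := by
      funext x; ring
    have e5 : (fun x => f (C.π x0 w) * g x * app C.K (C.H.bar (C.π x0 w)) k x) =
        fun x => f (C.π x0 w) * (app C.K (C.H.bar (C.π x0 w)) k x * g x) := by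
      funext x; ring
    rw [e4, e5, integral_const_mul, integral_const_mul, e3]
  rw [e1]
  simp_rw [e2]
  rw [swap2 hfx hg k2]
  congr 1
  funext x
  have hcc : CC fun l => f (C.H.bar l) * app C.K l k x :=
    (bar_homeo C hf).mul_left ((app_cont C hk).comp (by fun_prop : Continuous fun l : D => (x, l)))
  have h2 : ∫ z, f (C.H.bar (C.H.bar (C.π x0 z))) * app C.K (C.H.bar (C.π x0 z)) k x ∂ω =
      ∫ w, f (C.H.bar (C.π x0 w)) * app C.K (C.π x0 w) k x ∂ω := barinv C hω hT hc hcc x0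
  unfold S
  rw [← h2, ← integral_const_mul]
  congr 1
  funext w
  rw [C.H.bar_bar]
  ring

lemma P_adj (hω : IsOmega C.H C.K ω) {f : D → ℝ} (hf : CC f)
    {g k : X → ℝ} (hg : CC g) (hk : CC k) :
    ∫ x, k x * (∫ y, f (C.π x y) * g y ∂ω) ∂ω =
      ∫ y, g y * (∫ x, f (C.H.bar (C.π y x)) * k x ∂ω) ∂ω := by
  have i1 := hω.1
  have k1 : Continuous (uncurry fun (x y : X) => f (C.π x y)) := hf.1.comp C.π_cont
  have e1 : ∫ x, k x * (∫ y, f (C.π x y) * g y ∂ω) ∂ω =
      ∫ x, ∫ y, k x * g y * f (C.π x y) ∂ω ∂ω := by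
    congr 1
    funext x
    rw [← integral_const_mul]
    congr 1
    funext y
    ring
  rw [e1, swap2 hk hg k1]
  congr 1
  funext y
  rw [← integral_const_mul]
  congr 1
  funext x
  rw [pi_symm C y x]
  ring

end Q24.Cas
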