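import Pool.Agent.Q24.Cas.Basic

set_option autoImplicit false
set_option linter.unusedSectionVars false

open MeasureTheory Topology Set Function

namespace Q24.Cas

section helpers

variable {X Y : Type} [TopologicalSpace X] [T2Space X] [MeasurableSpace X] [BorelSpace X]
  [TopologicalSpace Y]

lemma swap2 {ω : Measure X} [IsFiniteMeasureOnCompacts ω] {a b : X → ℝ} (ha : CC a) (hb : CC b)
    {c : X → X → ℝ} (hc : Continuous (uncurry c)) :
    ∫ w, ∫ z, a w * b z * c w z ∂ω ∂ω = ∫ z, ∫ w, a w * b z * c w z ∂ω ∂ω := by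
  apply integral_integral_swap_of_hasCompactSupport
  · have := ha.1
    have := hb.1
    exact ((ha.1.comp continuous_fst).mul (hb.1.comp continuous_snd)).mul hc
  · refine HasCompactSupport.intro (ha.2.isCompact.prod hb.2.isCompact) fun p hp => ?_
    rw [mem_prod, not_and_or] at hp
    rcases hp with hp | hp
    · have : a p.1 = 0 := image_eq_zero_of_notMem_tsupport hp
      simp [uncurry, this]
    · have : b p.2 = 0 := image_eq_zero_of_notMem_tsupport hp
      simp [uncurry, this]

lemma par {ω : Measure X} [IsFiniteMeasureOnCompacts ω] {a : X → ℝ} (ha : CC a)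
    {c : Y → X → ℝ} (hc : Continuous (uncurry c)) :
    Continuous fun y => ∫ z, a z * c y z ∂ω := by
  rw [← continuousOn_univ]
  refine continuousOn_integral_of_compact_support ha.2 (Continuous.continuousOn ?_) ?_
  · exact (ha.1.comp continuous_snd).mul hc
  · intro p x _ hx
    rw [image_eq_zero_of_notMem_tsupport hx, zero_mul]

lemma integrable_cc {ω : Measure X} [IsFiniteMeasureOnCompacts ω] {a : X → ℝ} (ha : CC a) :
    Integrable a ω := ha.1.integrable_of_hasCompactSupport ha.2

/-- A continuous function all of whose integrals against test functions vanish is zero. -/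
lemma locX [LocallyCompactSpace X] {ω : Measure X} [IsFiniteMeasureOnCompacts ω]
    [ω.IsOpenPosMeasure] {Λ : X → ℝ} (hΛ : Continuous Λ)
    (h : ∀ φ : X → ℝ, CC φ → ∫ y, φ y * Λ y ∂ω = 0) (x : X) : Λ x = 0 := by
  by_contra hne
  have hU : IsOpen {y | 0 < Λ x * Λ y} := isOpen_lt continuous_const (continuous_const.mul hΛ)
  have hx : x ∈ {y | 0 < Λ x * Λ y} := mul_self_pos.2 hne
  obtain ⟨φ, h1, h2, h3, h4⟩ := urysohn (isCompact_singleton (x := x)) hU (by simpa using hx)
  have e1 : ∫ y, φ y * (Λ x * Λ y) ∂ω = 0 := by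
    have : (fun y => φ y * (Λ x * Λ y)) = fun y => Λ x * (φ y * Λ y) := by
      funext y; ring
    rw [this, integral_const_mul, h φ h1, mul_zero]
  have e2 : 0 < ∫ y, φ y * (Λ x * Λ y) ∂ω := by
    refine (h1.1.mul (continuous_const.mul hΛ)).integral_pos_of_hasCompactSupport_nonneg_nonzero
      (x := x) h1.2.mul_right (fun y => ?_) ?_
    · by_cases hy : φ y = 0
      · simp [hy]
      · exact mul_nonneg (h4 y) (le_of_lt (h3 y hy))
    · rw [h2 x rfl, one_mul]
      exact (mul_self_pos.2 hne).ne'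
  exact e2.ne' e1

end helpers

section cas

variable {X D : Type} [TopologicalSpace X] [T2Space X] [LocallyCompactSpace X]
  [SecondCountableTopology X] [MeasurableSpace X] [BorelSpace X]
  [TopologicalSpace D] [T2Space D] [LocallyCompactSpace D]
  [SecondCountableTopology D] [MeasurableSpace D] [BorelSpace D] (C : CAS X D)
  {ω : Measure X}

lemma adj (hω : IsOmega C.H C.K ω) (l : D) {f g : X → ℝ} (hf : CC f) (hg : CC g) :
    ∫ x, app C.K l f x * g x ∂ω = ∫ x, f x * app C.K (C.H.bar l) g x ∂ω := by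
  have := hω.2.2 (C.H.bar l) f g hf hg
  rwa [C.H.bar_bar] at this

lemma adjD (hω : IsOmega C.H C.K ω) (hT : C.T1) {φ F : D → ℝ} (hφ : CC φ) (hF : CC F) (x : X)
    (l : D) : ∫ y, C.H.val φ (C.π x y) l * F (C.π x y) ∂ω =
      ∫ y, φ (C.π x y) * C.H.val F (C.π x y) (C.H.bar l) ∂ω := by
  have e1 : (fun y => C.H.val φ (C.π x y) l * F (C.π x y)) =
      fun y => app C.K l (fun z => φ (C.π x z)) y * F (C.π x y) := by
    funext y
    rw [hT l x φ hφ y]
  have e2 : (fun y => φ (C.π x y) * C.H.val F (C.π x y) (C.H.bar l)) =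
      fun y => φ (C.π x y) * app C.K (C.H.bar l) (fun z => F (C.π x z)) y := by
    funext y
    rw [hT (C.H.bar l) x F hF y]
  rw [e1, e2]
  exact adj C hω l (cc_pi C hφ x) (cc_pi C hF x)

lemma pi_cont (x : X) : Continuous fun y => C.π x y :=
  C.π_cont.comp (by fun_prop : Continuous fun y : X => (x, y))

lemma loc (hω : IsOmega C.H C.K ω) (x : X) {Λ : X → ℝ} (hΛ : Continuous Λ)
    (h : ∀ φ : D → ℝ, CC φ → ∫ y, φ (C.π x y) * Λ y ∂ω = 0) : Λ x = 0 := by
  obtain ⟨i1, i2, -⟩ := hω
  by_contra hne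
  have hU : IsOpen {y | 0 < Λ x * Λ y} := isOpen_lt continuous_const (continuous_const.mul hΛ)
  have hx : x ∈ {y | 0 < Λ x * Λ y} := mul_self_pos.2 hne
  have hV : IsOpen {l : D | (C.K x l).support ⊆ {y | 0 < Λ x * Λ y}} :=
    (C.supp_cont.comp (by fun_prop : Continuous fun l : D => (x, l))).1 _ hU
  have heV : C.H.e ∈ {l : D | (C.K x l).support ⊆ {y | 0 < Λ x * Λ y}} := by
    change (C.K x C.H.e).support ⊆ _
    rw [C.K_e, support_dirac]
    simpa using hx
  obtain ⟨φ, h1, h2, h3, h4⟩ := urysohn (isCompact_singleton (x := C.H.e)) hV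
    (by simpa using heV)
  have e1 : ∫ y, φ (C.π x y) * (Λ x * Λ y) ∂ω = 0 := by
    have : (fun y => φ (C.π x y) * (Λ x * Λ y)) = fun y => Λ x * (φ (C.π x y) * Λ y) := by
      funext y; ring
    rw [this, integral_const_mul, h φ h1, mul_zero]
  have hcc := cc_pi C h1 x
  have e2 : 0 < ∫ y, φ (C.π x y) * (Λ x * Λ y) ∂ω := by
    refine (hcc.1.mul (continuous_const.mul hΛ)).integral_pos_of_hasCompactSupport_nonneg_nonzero
      (x := x) hcc.2.mul_right (fun y => ?_) ?_
    · by_cases hy : φ (C.π x y) = 0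
      · simp [hy]
      · exact mul_nonneg (h4 _) (le_of_lt (h3 _ hy (mem_supp C x y)))
    · rw [pi_self, h2 _ rfl, one_mul]
      exact (mul_self_pos.2 hne).ne'
  exact e2.ne' e1

lemma val_comm (hc : C.Comm) (φ : D → ℝ) (a b : D) : C.H.val φ a b = C.H.val φ b a := by
  unfold Hypergroup.val
  rw [hc]

/-- The key identity. -/
lemma star (hω : IsOmega C.H C.K ω) (hT : C.T1) (hc : C.Comm) {g : X → ℝ} (hg : CC g)
    {F : D → ℝ} (hF : CC F) (x : X) :
    ∫ z, g z * F (C.H.bar (C.π x z)) ∂ω =
      ∫ w, F (C.π x w) * app C.K (C.H.bar (C.π x w)) g x ∂ω := by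
  have i1 := hω.1
  have hπ := pi_cont C x
  have hFx := cc_pi C hF x
  -- continuity of the two kernels
  have k1 : Continuous (uncurry fun (y z : X) =>
      C.H.val F (C.π x y) (C.H.bar (C.π x z))) :=
    (val_cont C hF).comp ((hπ.comp continuous_fst).prodMk
      (C.H.bar_cont.comp (hπ.comp continuous_snd)))
  have k2 : Continuous (uncurry fun (y w : X) => app C.K (C.H.bar (C.π x w)) g y) :=
    (app_cont C hg).comp (continuous_fst.prodMk (C.H.bar_cont.comp (hπ.comp continuous_snd)))
  set A : X → ℝ := fun y => ∫ z, g z * C.H.val F (C.π x y) (C.H.bar (C.π x z)) ∂ω with hA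
  set B : X → ℝ := fun y => ∫ w, F (C.π x w) * app C.K (C.H.bar (C.π x w)) g y ∂ω with hB
  have hAc : Continuous A := par hg k1
  have hBc : Continuous B := par hFx k2
  have key : ∀ φ : D → ℝ, CC φ → ∫ y, φ (C.π x y) * (A y - B y) ∂ω = 0 := by
    intro φ hφ
    have hφx := cc_pi C hφ x
    have hA' : ∫ y, φ (C.π x y) * A y ∂ω =
        ∫ w, ∫ z, F (C.π x w) * g z * C.H.val φ (C.π x z) (C.π x w) ∂ω ∂ω := by
      have k3 : Continuous (uncurry fun (w z : X) => C.H.val φ (C.π x z) (C.π x w)) :=
        (val_cont C hφ).comp ((hπ.comp continuous_snd).prodMk (hπ.comp continuous_fst))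
      rw [swap2 hFx hg k3]
      have e1 : ∀ z, ∫ w, F (C.π x w) * g z * C.H.val φ (C.π x z) (C.π x w) ∂ω =
          ∫ w, φ (C.π x w) * g z * C.H.val F (C.π x w) (C.H.bar (C.π x z)) ∂ω := by
        intro z
        have e2 := adjD C hω hT hφ hF x (C.π x z)
        have e3 : (fun w => F (C.π x w) * g z * C.H.val φ (C.π x z) (C.π x w)) =
            fun w => g z * (C.H.val φ (C.π x w) (C.π x z) * F (C.π x w)) := by
          funext w
          rw [val_comm C hc φ (C.π x z)]
          ring
        have e4 : (fun w => φ (C.π x w) * g z * C.H.val F (C.π x w) (C.H.bar (C.π x z))) =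
            fun w => g z * (φ (C.π x w) * C.H.val F (C.π x w) (C.H.bar (C.π x z))) := by
          funext w
          ring
        rw [e3, e4, integral_const_mul, integral_const_mul, e2]
      simp_rw [e1]
      rw [← swap2 hφx hg k1]
      congr 1
      funext w
      rw [hA]
      simp only
      rw [← integral_const_mul]
      congr 1
      funext z
      ring
    have hB' : ∫ y, φ (C.π x y) * B y ∂ω =
        ∫ w, ∫ z, F (C.π x w) * g z * C.H.val φ (C.π x z) (C.π x w) ∂ω ∂ω := by
      have e1 : ∀ w, ∫ z, F (C.π x w) * g z * C.H.val φ (C.π x z) (C.π x w) ∂ω =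
          ∫ y, F (C.π x w) * φ (C.π x y) * app C.K (C.H.bar (C.π x w)) g y ∂ω := by
        intro w
        have e2 := adj C hω (C.π x w) hφx hg
        have e3 : (fun z => F (C.π x w) * g z * C.H.val φ (C.π x z) (C.π x w)) =
            fun z => F (C.π x w) * (app C.K (C.π x w) (fun y => φ (C.π x y)) z * g z) := by
          funext z
          rw [hT (C.π x w) x φ hφ z]
          ring
        have e4 : (fun y => F (C.π x w) * φ (C.π x y) * app C.K (C.H.bar (C.π x w)) g y) =
            fun y => F (C.π x w) * (φ (C.π x y) * app C.K (C.H.bar (C.π x w)) g y) := by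
          funext y
          ring
        rw [e3, e4, integral_const_mul, integral_const_mul, e2]
      simp_rw [e1]
      have k4 : Continuous (uncurry fun (w y : X) => app C.K (C.H.bar (C.π x w)) g y) :=
        (app_cont C hg).comp (continuous_snd.prodMk
          (C.H.bar_cont.comp (hπ.comp continuous_fst)))
      rw [swap2 hFx hφx k4]
      congr 1
      funext y
      rw [hB]
      simp only
      rw [← integral_const_mul]
      congr 1
      funext w
      ring
    have e5 : (fun y => φ (C.π x y) * (A y - B y)) =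
        fun y => φ (C.π x y) * A y - φ (C.π x y) * B y := by
      funext y; ring
    rw [e5, integral_sub (integrable_cc (hφx.mul_left hAc)) (integrable_cc (hφx.mul_left hBc)),
      hA', hB', sub_self]
  have h0 := loc C hω x (hAc.sub hBc) key
  have h1 : A x = B x := sub_eq_zero.1 h0
  have h2 : A x = ∫ z, g z * F (C.H.bar (C.π x z)) ∂ω := by
    rw [hA]
    simp only
    rw [pi_self]
    simp_rw [val_e C hF.1]
  rw [← h2, h1]

lemma barinv (hω : IsOmega C.H C.K ω) (hT : C.T1) (hc : C.Comm) {F : D → ℝ} (hF : CC F)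
    (x : X) : ∫ z, F (C.H.bar (C.π x z)) ∂ω = ∫ w, F (C.π x w) ∂ω := by
  obtain ⟨K, hK, hs⟩ := sph C (isCompact_singleton (x := x))
    (hF.2.isCompact.image C.H.bar_cont)
  obtain ⟨g, hg, g1, -, -⟩ := urysohn hK isOpen_univ (subset_univ _)
  have h := star C hω hT hc hg hF x
  have e1 : (fun z => g z * F (C.H.bar (C.π x z))) = fun z => F (C.H.bar (C.π x z)) := by
    funext z
    by_cases hz : F (C.H.bar (C.π x z)) = 0
    · rw [hz, mul_zero]
    · rw [g1 z (hs x rfl z ⟨_, subset_tsupport _ hz, C.H.bar_bar _⟩), one_mul]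
  have e2 : (fun w => F (C.π x w) * app C.K (C.H.bar (C.π x w)) g x) =
      fun w => F (C.π x w) := by
    funext w
    by_cases hw : F (C.π x w) = 0
    · rw [hw, zero_mul]
    · rw [app_one C (fun z hz => g1 z (hs x rfl z ?_)), mul_one]
      exact ⟨_, subset_tsupport _ hw, hz.symm⟩
  rw [e1, e2] at h
  exact h

lemma AA (hω : IsOmega C.H C.K ω) (hT : C.T1) (hc : C.Comm) {f : D → ℝ} (hf : CC f)
    {g : X → ℝ} (hg : CC g) (x : X) :
    ∫ y, f (C.π x y) * g y ∂ω = ∫ w, f (C.π x w) * app C.K (C.π x w) g x ∂ω := by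
  have h := star C hω hT hc hg (bar_homeo C hf) x
  simp only [C.H.bar_bar] at h
  have hcc : CC fun l => f l * app C.K l g x :=
    hf.mul_left ((app_cont C hg).comp (by fun_prop : Continuous fun l : D => (x, l)))
  have h2 : ∫ z, f (C.H.bar (C.π x z)) * app C.K (C.H.bar (C.π x z)) g x ∂ω =
      ∫ w, f (C.π x w) * app C.K (C.π x w) g x ∂ω := barinv C hω hT hc hcc x
  rw [← h2, ← h]
  congr 1
  funext y
  ring

end cas

end Q24.Cas
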