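import Pool.Agent.Q24.Cas.Fin

set_option autoImplicit false
set_option linter.unusedSectionVars false

open MeasureTheory Topology Set Function

namespace Q24.Cas

variable {X D : Type} [TopologicalSpace X] [T2Space X] [LocallyCompactSpace X]
  [SecondCountableTopology X] [MeasurableSpace X] [BorelSpace X]
  [TopologicalSpace D] [T2Space D] [LocallyCompactSpace D]
  [SecondCountableTopology D] [MeasurableSpace D] [BorelSpace D] (C : CAS X D)
  {ω : Measure X}

lemma par2 [IsFiniteMeasureOnCompacts ω] {F : D → ℝ} (hF : CC F) :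
    Continuous fun x => ∫ y, F (C.π x y) ∂ω := by
  rw [continuous_iff_continuousAt]
  intro x
  obtain ⟨N, hN, hxN⟩ := exists_compact_mem_nhds x
  obtain ⟨K, hK, hs⟩ := sph C hN hF.2.isCompact
  refine ContinuousOn.continuousAt (s := N) ?_ hxN
  refine continuousOn_integral_of_compact_support hK
    (hF.1.comp C.π_cont).continuousOn fun p y hp hy => ?_
  by_contra hne
  exact hy (hs p hp y (subset_tsupport _ hne))

lemma surj (x0 : X) (h : D) : ∃ w, C.π x0 w = h := by
  have := C.prob x0 h
  by_contra hne
  push Not at hne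
  have h1 : (C.K x0 h).support = ∅ := by
    rw [eq_empty_iff_forall_notMem]
    intro w hw
    exact hne w ((C.partition x0 w h).1 hw)
  have h2 := Measure.support_mem_ae (μ := C.K x0 h)
  rw [h1] at h2
  have h3 : (ae (C.K x0 h)) = ⊥ := by
    rw [← Filter.empty_mem_iff_bot]
    exact h2
  rw [ae_eq_bot] at h3
  have h4 := measure_univ (μ := C.K x0 h)
  rw [h3] at h4
  simp at h4

/-- Localisation on `D`. -/
lemma locD (hω : IsOmega C.H C.K ω) (x0 : X) {L : D → ℝ} (hL : Continuous L)
    (h : ∀ φ : D → ℝ, CC φ → ∫ y, φ (C.π x0 y) * L (C.π x0 y) ∂ω = 0) (l : D) : L l = 0 := by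
  obtain ⟨i1, i2, -⟩ := hω
  by_contra hne
  obtain ⟨w, rfl⟩ := surj C x0 l
  have hU : IsOpen {y | 0 < L (C.π x0 w) * L y} :=
    isOpen_lt continuous_const (continuous_const.mul hL)
  have hx : C.π x0 w ∈ {y | 0 < L (C.π x0 w) * L y} := mul_self_pos.2 hne
  obtain ⟨φ, h1, h2, h3, h4⟩ := urysohn (isCompact_singleton (x := C.π x0 w)) hU
    (by simpa using hx)
  have e1 : ∫ y, φ (C.π x0 y) * (L (C.π x0 w) * L (C.π x0 y)) ∂ω = 0 := by
    have : (fun y => φ (C.π x0 y) * (L (C.π x0 w) * L (C.π x0 y))) =
        fun y => L (C.π x0 w) * (φ (C.π x0 y) * L (C.π x0 y)) := by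
      funext y; ring
    rw [this, integral_const_mul, h φ h1, mul_zero]
  have hcc := cc_pi C h1 x0
  have e2 : 0 < ∫ y, φ (C.π x0 y) * (L (C.π x0 w) * L (C.π x0 y)) ∂ω := by
    refine (hcc.1.mul (continuous_const.mul (hL.comp (pi_cont C x0)))
      ).integral_pos_of_hasCompactSupport_nonneg_nonzero
      (x := w) hcc.2.mul_right (fun y => ?_) ?_
    · by_cases hy : φ (C.π x0 y) = 0
      · simp [hy]
      · exact mul_nonneg (h4 _) (le_of_lt (h3 _ hy))
    · rw [h2 _ rfl, one_mul]
      exact (mul_self_pos.2 hne).ne'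
  exact e2.ne' e1

lemma const (hω : IsOmega C.H C.K ω) (hT : C.T1) (hc : C.Comm) {F : D → ℝ} (hF : CC F)
    (x x' : X) : ∫ y, F (C.π x y) ∂ω = ∫ y, F (C.π x' y) ∂ω := by
  have i1 := hω.1
  have i2 := hω.2.1
  obtain ⟨F0, hF0, a1, -, a3⟩ := urysohn (isCompact_singleton (x := C.H.e)) isOpen_univ
    (subset_univ _)
  set c : X → ℝ := fun x => ∫ y, F0 (C.π x y) ∂ω with hcdef
  have hcc : Continuous c := par2 C hF0
  have cpos : ∀ x, 0 < c x := by
    intro x
    have h1 := cc_pi C hF0 x
    refine h1.1.integral_pos_of_hasCompactSupport_nonneg_nonzero (x := x) h1.2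
      (fun y => a3 _) ?_
    rw [pi_self, a1 _ rfl]
    exact one_ne_zero
  have PS : ∀ {f : D → ℝ} {g : X → ℝ}, CC f → CC g → ∀ z,
      c x * (∫ y, f (C.π z y) * g y ∂ω) = c z * S C ω x f g z := by
    intro f g hf hg z
    have hH : CC fun l => f l * app C.K l g z :=
      hf.mul_left ((app_cont C hg).comp (by fun_prop : Continuous fun l : D => (z, l)))
    have h1 := uniq C hω hT hc hH hF0 z x
    rw [AA C hω hT hc hf hg z]
    unfold S
    rw [hcdef]
    simp only
    linarith
  have L0 : ∀ {g : X → ℝ}, CC g → ∀ z l,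
      c z * app C.K l g z = app C.K l (fun y => g y * c y) z := by
    intro g hg z l
    have hgc : CC fun y => g y * c y := hg.mul_left hcc
    have step : ∀ f : D → ℝ, CC f → c z * S C ω x f g z = S C ω x f (fun y => g y * c y) z := by
      intro f hf
      have hfb := bar_homeo C hf
      have k0 := locX (ω := ω) (Λ := fun z => c z * S C ω x f g z -
        S C ω x f (fun y => g y * c y) z)
        ((hcc.mul (S_cont C hω hf hg x)).sub (S_cont C hω hf hgc x)) (fun k hk => ?_) z
      · linarith
      · have e1 : ∫ z, k z * (c z * S C ω x f g z) ∂ω =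
            c x * ∫ z, k z * (∫ y, f (C.π z y) * g y ∂ω) ∂ω := by
          rw [← integral_const_mul]
          congr 1
          funext z
          rw [← PS hf hg z]
          ring
        have e2 : ∫ z, k z * S C ω x f (fun y => g y * c y) z ∂ω =
            c x * ∫ y, g y * (∫ x, f (C.H.bar (C.π y x)) * k x ∂ω) ∂ω := by
          rw [S_adj C hω hT hc hf hgc hk x, ← integral_const_mul]
          congr 1
          funext z
          have := PS hfb hk z
          have e3 : c x * (g z * ∫ x, f (C.H.bar (C.π z x)) * k x ∂ω) =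
              g z * (c x * ∫ x, f (C.H.bar (C.π z x)) * k x ∂ω) := by ring
          rw [e3]
          rw [this]
          ring
        have e4 : (fun z => k z * (c z * S C ω x f g z - S C ω x f (fun y => g y * c y) z)) =
            fun z => k z * (c z * S C ω x f g z) -
              k z * S C ω x f (fun y => g y * c y) z := by
          funext z; ring
        have j1 : Integrable (fun z => k z * (c z * S C ω x f g z)) ω :=
          integrable_cc (hk.mul_left (hcc.mul (S_cont C hω hf hg x)))
        have j2 : Integrable (fun z => k z * S C ω x f (fun y => g y * c y) z) ω :=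
          integrable_cc (hk.mul_left (S_cont C hω hf hgc x))
        rw [e4, integral_sub j1 j2, e1, e2, P_adj C hω hf hg hk, sub_self]
    have c1 : Continuous fun l => c z * app C.K l g z - app C.K l (fun y => g y * c y) z :=
      (continuous_const.mul
        ((app_cont C hg).comp (by fun_prop : Continuous fun l : D => (z, l)))).sub
        ((app_cont C hgc).comp (by fun_prop : Continuous fun l : D => (z, l)))
    have k1 := locD C hω x c1 (fun φ hφ => ?_) l
    · linarith
    · have s1 := step φ hφ
      unfold S at s1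
      have m1 : Continuous fun w => app C.K (C.π x w) g z :=
        (app_cont C hg).comp (continuous_const.prodMk (pi_cont C x))
      have m2 : Continuous fun w => app C.K (C.π x w) (fun y => g y * c y) z :=
        (app_cont C hgc).comp (continuous_const.prodMk (pi_cont C x))
      have j1 : Integrable (fun w => c z * (φ (C.π x w) * app C.K (C.π x w) g z)) ω :=
        (integrable_cc ((cc_pi C hφ x).mul_left m1)).const_mul _
      have j2 : Integrable (fun w => φ (C.π x w) *
          app C.K (C.π x w) (fun y => g y * c y) z) ω :=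
        integrable_cc ((cc_pi C hφ x).mul_left m2)
      have e4 : (fun w => φ (C.π x w) * (c z * app C.K (C.π x w) g z -
          app C.K (C.π x w) (fun y => g y * c y) z)) =
          fun w => c z * (φ (C.π x w) * app C.K (C.π x w) g z) -
            φ (C.π x w) * app C.K (C.π x w) (fun y => g y * c y) z := by
        funext w; ring
      rw [e4, integral_sub j1 j2, integral_const_mul, s1, sub_self]
  have ceq : ∀ y z, c y = c z := by
    intro y z
    by_contra hne
    obtain ⟨b, hb, b1, -, b3⟩ := urysohn (isCompact_singleton (x := y)) isOpen_univ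
      (subset_univ _)
    have hg : CC fun t => b t * (c t - c z) := hb.mul_left (hcc.sub continuous_const)
    have h1 := L0 hg z (C.π z y)
    have hq : CC fun t => b t * (c t - c z) * (c t - c z) :=
      hg.mul_left (hcc.sub continuous_const)
    have h2 : 0 < app C.K (C.π z y) (fun t => b t * (c t - c z) * (c t - c z)) z := by
      refine app_pos C hq (fun t => ?_) ?_
      · rw [mul_assoc]
        exact mul_nonneg (b3 t) (mul_self_nonneg _)
      · rw [b1 y rfl, one_mul]
        exact (mul_self_pos.2 (sub_ne_zero.2 hne)).ne'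
    have := C.prob z (C.π z y)
    have h3 : app C.K (C.π z y) (fun t => b t * (c t - c z) * (c t - c z)) z =
        app C.K (C.π z y) (fun t => b t * (c t - c z) * c t) z -
          c z * app C.K (C.π z y) (fun t => b t * (c t - c z)) z := by
      unfold app
      rw [← integral_const_mul, ← integral_sub (integrable_cc (hg.mul_left hcc))
        ((integrable_cc hg).const_mul _)]
      congr 1
      funext t
      ring
    rw [h3, h1, sub_self] at h2
    exact lt_irrefl _ h2
  have u := uniq C hω hT hc hF hF0 x x'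
  have c1 : ∫ y, F0 (C.π x y) ∂ω = c x := rfl
  have c2 : ∫ y, F0 (C.π x' y) ∂ω = c x := ceq x' x
  rw [c1, c2] at u
  have h0 := (cpos x).ne'
  field_simp at u
  linarith

lemma inv_app (hω : IsOmega C.H C.K ω) (l : D) {ψ : X → ℝ} (hψ : CC ψ) :
    ∫ x, app C.K l ψ x ∂ω = ∫ x, ψ x ∂ω := by
  obtain ⟨K, hK, hs⟩ := sph C hψ.2.isCompact (isCompact_singleton (x := C.H.bar l))
  obtain ⟨g, hg, g1, -, -⟩ := urysohn (hK.union (cc_app C hψ l).2.isCompact) isOpen_univ
    (subset_univ _)
  have h := adj C hω l hψ hg
  have e1 : (fun x => app C.K l ψ x * g x) = fun x => app C.K l ψ x := by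
    funext x
    by_cases hx : app C.K l ψ x = 0
    · rw [hx, zero_mul]
    · rw [g1 x (Or.inr (subset_tsupport (f := fun x => app C.K l ψ x) hx)), mul_one]
  have e2 : (fun x => ψ x * app C.K (C.H.bar l) g x) = ψ := by
    funext x
    by_cases hx : ψ x = 0
    · rw [hx, zero_mul]
    · rw [app_one C (fun z hz => g1 z (Or.inl (hs x (subset_tsupport _ hx) z hz))), mul_one]
  rw [e1, e2] at h
  exact h

/-- Theorem A. -/
theorem t1_t2 (hc : C.Comm) (hT : C.T1) (hω : IsOmega C.H C.K ω) :
    ∃ ν, C.H.LeftHaar ν ∧ C.Formula ω ν := by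
  have i1 := hω.1
  have i2 := hω.2.1
  obtain ⟨x0⟩ := C.nonempty
  have hmeas : Measurable (C.π x0) := (pi_cont C x0).measurable
  have hint : ∀ {f : D → ℝ}, Continuous f →
      ∫ h, f h ∂(ω.map (C.π x0)) = ∫ w, f (C.π x0 w) ∂ω := by
    intro f hf
    exact integral_map hmeas.aemeasurable hf.aestronglyMeasurable
  refine ⟨ω.map (C.π x0), ⟨?_, ⟨?_⟩, ?_⟩, ?_⟩
  · intro h0
    have h1 : (ω.map (C.π x0)) univ = 0 := by rw [h0]; simp
    rw [Measure.map_apply hmeas MeasurableSet.univ, preimage_univ] at h1
    exact (isOpen_univ.measure_pos ω ⟨x0, mem_univ _⟩).ne' h1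
  · intro L hL
    obtain ⟨K, hK, hs⟩ := sph C (isCompact_singleton (x := x0)) hL
    rw [Measure.map_apply hmeas hL.measurableSet]
    exact lt_of_le_of_lt (measure_mono fun y hy => hs x0 rfl y hy) hK.measure_lt_top
  · intro f hf l
    have c1 : Continuous fun y => C.H.val f l y :=
      (val_cont C hf).comp (by fun_prop : Continuous fun y : D => (l, y))
    rw [hint c1, hint hf.1, ← inv_app C hω l (cc_pi C hf x0)]
    congr 1
    funext w
    rw [val_comm C hc f l, hT l x0 f hf w]
  · intro f hf g hg x
    have hH : CC fun l => app C.K l g x * f l :=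
      hf.mul_right ((app_cont C hg).comp (by fun_prop : Continuous fun l : D => (x, l)))
    rw [hint hH.1]
    have h1 := const C hω hT hc hH x0 x
    rw [h1, AA C hω hT hc hf hg x]
    congr 1
    funext w
    ring

end Q24.Cas
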